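import Pool.Agent.Q186.DY.Stm

/-!
# Job BAR: the barrier lemma
-/

namespace Pool.Agent.Q58.DY

open Set Filter Topology MeasureTheory Pool.Agent.Q186.DY

/-- Job BAR -/
theorem t_BAR : P_BAR := by
  intro ι s φ T hT hc h0 hd
  by_contra hcon
  push Not at hcon
  obtain ⟨t₁, ht10, ht1T, i₁, hi₁, hle₁⟩ := hcon
  set Z : Set ℝ := ⋃ i ∈ s, (Icc 0 T ∩ φ i ⁻¹' Iic 0) with hZdef
  have hZcl : IsClosed Z := by
    rw [hZdef]
    exact Set.Finite.isClosed_biUnion s.finite_toSet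
      (fun i hi => (hc i hi).preimage_isClosed_of_isClosed isClosed_Icc isClosed_Iic)
  have hmem : ∀ t, t ∈ Z ↔ ∃ i ∈ s, (0 ≤ t ∧ t ≤ T) ∧ φ i t ≤ 0 := by
    intro t
    rw [hZdef]
    simp only [mem_iUnion, mem_inter_iff, mem_Icc, mem_preimage, mem_Iic, exists_prop]
  have hZsub : Z ⊆ Icc 0 T := by
    intro t ht
    obtain ⟨i, -, h, -⟩ := (hmem t).mp ht
    exact h
  have hZ : IsCompact Z := isCompact_Icc.of_isClosed_subset hZcl hZsub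
  obtain ⟨t, htZ, htl⟩ := hZ.exists_isLeast ⟨t₁, (hmem t₁).mpr ⟨i₁, hi₁, ⟨ht10, ht1T⟩, hle₁⟩⟩
  obtain ⟨i, hi, ⟨ht0, htT⟩, hit⟩ := (hmem t).mp htZ
  have htpos : 0 < t := by
    rcases ht0.eq_or_lt with h | h
    · rw [← h] at hit
      exact absurd (h0 i hi) (not_lt.mpr hit)
    · exact h
  have hbefore : ∀ r, 0 ≤ r → r < t → ∀ j ∈ s, 0 < φ j r := by
    intro r hr hrt j hj
    by_contra hneg
    have : r ∈ Z := (hmem r).mpr ⟨j, hj, ⟨hr, (hrt.le).trans htT⟩, not_lt.mp hneg⟩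
    exact absurd (htl this) (not_le.mpr hrt)
  have hall : ∀ j ∈ s, 0 ≤ φ j t := by
    intro j hj
    have h1 : Tendsto (φ j) (𝓝[Ico 0 t] t) (𝓝 (φ j t)) :=
      (hc j hj t ⟨ht0, htT⟩).mono (fun x hx => ⟨hx.1, (hx.2.le).trans htT⟩)
    have := right_nhdsWithin_Ico_neBot htpos
    refine ge_of_tendsto h1 ?_
    filter_upwards [self_mem_nhdsWithin] with r hr
    exact (hbefore r hr.1 hr.2 j hj).le
  have hit0 : φ i t = 0 := le_antisymm hit (hall i hi)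
  obtain ⟨d, hdpos, hdd⟩ := hd t htpos htT i hi hall hit0
  have h2 : Tendsto (slope (φ i) t) (𝓝[<] t) (𝓝 d) :=
    (hasDerivWithinAt_iff_tendsto_slope' (by simp)).mp (hdd.mono Iio_subset_Iic_self)
  have h3 : ∀ᶠ r in 𝓝[<] t, 0 < slope (φ i) t r := h2.eventually (lt_mem_nhds hdpos)
  have h4 : ∀ᶠ r in 𝓝[<] t, r ∈ Ioo 0 t := Ioo_mem_nhdsLT htpos
  obtain ⟨r, hr1, hr2⟩ := (h3.and h4).exists
  have h5 := hbefore r hr2.1.le hr2.2 i hi
  rw [slope_def_field, hit0, sub_zero] at hr1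
  have h6 : φ i r / (r - t) < 0 := div_neg_of_pos_of_neg h5 (by linarith [hr2.2])
  linarith

end Pool.Agent.Q58.DY
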