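import Pool.Agent.Q58.DY.NN

/-!
# Job EN: the energy identity of the first shells
-/

namespace Pool.Agent.Q58.DY

open Set Filter Topology MeasureTheory Pool.Agent.Q186.DY

lemma en_deriv {L g k : ℝ} {V : ℕ → ℝ → ℝ} (hL : 0 < L) (hV : Sys L g k V) (N : ℕ) :
    ∀ t, 0 ≤ t → HasDerivWithinAt (fun t => ∑ n ∈ Finset.range (N + 1), (g / L) ^ n * V n t ^ 2)
      (-(2 * k / L * ∑ n ∈ Finset.range (N + 1), g ^ n * V n t ^ 2)
        - 2 * g / L * (g ^ N * V N t ^ 2 * V (N + 1) t)) (Ici 0) t := by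
  induction N with
  | zero =>
    intro t ht
    have h1 : HasDerivWithinAt (fun _ : ℝ => (0 : ℝ)) 0 (Ici 0) t := hasDerivWithinAt_const _ _ _
    have h2 := h1.congr (f₁ := fun t => ∑ n ∈ Finset.range (0 + 1), (g / L) ^ n * V n t ^ 2)
      (fun s hs => by simp [hV.zero s hs]) (by simp [hV.zero t ht])
    have h3 : (-(2 * k / L * ∑ n ∈ Finset.range (0 + 1), g ^ n * V n t ^ 2)
        - 2 * g / L * (g ^ 0 * V 0 t ^ 2 * V (0 + 1) t)) = 0 := by simp [hV.zero t ht]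
    rw [h3]
    exact h2
  | succ N ih =>
    intro t ht
    have h1 := (ih t ht).add (((hV.deriv N t ht).pow 2).const_mul ((g / L) ^ (N + 1)))
    have h2 := h1.congr
      (f₁ := fun t => ∑ n ∈ Finset.range (N + 1 + 1), (g / L) ^ n * V n t ^ 2)
      (fun s _ => by
        simp only [Pi.add_apply]
        rw [Finset.sum_range_succ]
        rfl)
      (by
        simp only [Pi.add_apply]
        rw [Finset.sum_range_succ]
        rfl)
    have h3 : (-(2 * k / L * ∑ n ∈ Finset.range (N + 1 + 1), g ^ n * V n t ^ 2)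
        - 2 * g / L * (g ^ (N + 1) * V (N + 1) t ^ 2 * V (N + 1 + 1) t)) =
        (-(2 * k / L * ∑ n ∈ Finset.range (N + 1), g ^ n * V n t ^ 2) -
          2 * g / L * (g ^ N * V N t ^ 2 * V (N + 1) t) +
        (g / L) ^ (N + 1) * (((2 : ℕ) : ℝ) * V (N + 1) t ^ (2 - 1) *
          (L ^ N * (V N t ^ 2 - V (N + 1) t * (g * V (N + 2) t + k))))) := by
      rw [Finset.sum_range_succ _ (N + 1), div_pow]
      have hL' : L ≠ 0 := hL.ne'
      field_simp
      push_cast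
      ring
    rw [h3]
    exact h2

/-- the energy identity (the repaired form of `P_EN`) -/
theorem en_main (L g k : ℝ) (V : ℕ → ℝ → ℝ) (hL : 0 < L) (hV : Sys L g k V) (N : ℕ) (t : ℝ)
    (ht : 0 ≤ t) :
    ∑ n ∈ Finset.range (N + 1), (g / L) ^ n * V n t ^ 2
      + 2 * k / L * (∫ s in (0:ℝ)..t, ∑ n ∈ Finset.range (N + 1), g ^ n * V n s ^ 2)
      + 2 * g / L * (∫ s in (0:ℝ)..t, g ^ N * V N s ^ 2 * V (N + 1) s)
      = ∑ n ∈ Finset.range (N + 1), (g / L) ^ n * V n 0 ^ 2 := by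
  have hc : ∀ n, ContinuousOn (V n) (uIcc 0 t) := fun n =>
    (cont hV n).mono (by rw [uIcc_of_le ht]; exact fun x hx => hx.1)
  have hc1 : ContinuousOn (fun s => ∑ n ∈ Finset.range (N + 1), g ^ n * V n s ^ 2) (uIcc 0 t) :=
    continuousOn_finsetSum _ fun n _ => continuousOn_const.mul ((hc n).pow 2)
  have hc2 : ContinuousOn (fun s => g ^ N * V N s ^ 2 * V (N + 1) s) (uIcc 0 t) :=
    (continuousOn_const.mul ((hc N).pow 2)).mul (hc (N + 1))
  have hc3 : ContinuousOn (fun s => ∑ n ∈ Finset.range (N + 1), (g / L) ^ n * V n s ^ 2)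
      (uIcc 0 t) :=
    continuousOn_finsetSum _ fun n _ => continuousOn_const.mul ((hc n).pow 2)
  have hi1 := hc1.intervalIntegrable (μ := volume)
  have hi2 := hc2.intervalIntegrable (μ := volume)
  have h1 := intervalIntegral.integral_eq_sub_of_hasDerivAt_of_le ht
    (f := fun t => ∑ n ∈ Finset.range (N + 1), (g / L) ^ n * V n t ^ 2)
    (f' := fun t => -(2 * k / L * ∑ n ∈ Finset.range (N + 1), g ^ n * V n t ^ 2)
        - 2 * g / L * (g ^ N * V N t ^ 2 * V (N + 1) t))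
    (by rw [← uIcc_of_le ht]; exact hc3)
    (fun x hx => (en_deriv hL hV N x hx.1.le).hasDerivAt (Ici_mem_nhds hx.1))
    (((hi1.const_mul _).neg).sub (hi2.const_mul _))
  have h2 : (∫ s in (0:ℝ)..t, (-(2 * k / L * ∑ n ∈ Finset.range (N + 1), g ^ n * V n s ^ 2)
        - 2 * g / L * (g ^ N * V N s ^ 2 * V (N + 1) s))) =
      -(2 * k / L * ∫ s in (0:ℝ)..t, ∑ n ∈ Finset.range (N + 1), g ^ n * V n s ^ 2) -
        2 * g / L * ∫ s in (0:ℝ)..t, g ^ N * V N s ^ 2 * V (N + 1) s := by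
    rw [← intervalIntegral.integral_const_mul, ← intervalIntegral.integral_const_mul,
      ← intervalIntegral.integral_neg, ← intervalIntegral.integral_sub]
    · exact (hi1.const_mul _).neg
    · exact hi2.const_mul _
  rw [h2] at h1
  linarith

/-- the repaired form of `P_EN` -/
def P_EN2 : Prop := ∀ (L g k : ℝ) (V : ℕ → ℝ → ℝ), 0 < L → Sys L g k V →
  ∀ (N : ℕ) (t : ℝ), 0 ≤ t →
  ∑ n ∈ Finset.range (N + 1), (g / L) ^ n * V n t ^ 2
    + 2 * k / L * (∫ s in (0:ℝ)..t, ∑ n ∈ Finset.range (N + 1), g ^ n * V n s ^ 2)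
    + 2 * g / L * (∫ s in (0:ℝ)..t, g ^ N * V N s ^ 2 * V (N + 1) s)
    = ∑ n ∈ Finset.range (N + 1), (g / L) ^ n * V n 0 ^ 2

/-- Job EN -/
theorem t_EN2 : P_EN2 := fun L g k V hL hV N t ht => en_main L g k V hL hV N t ht

end Pool.Agent.Q58.DY
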