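import Pool.Agent.Q186.DY.Stm

/-!
# Job NN: nonnegative solutions
-/

namespace Pool.Agent.Q58.DY

open Set Filter Topology MeasureTheory Pool.Agent.Q186.DY

lemma cont {L g k : ℝ} {V : ℕ → ℝ → ℝ} (hV : Sys L g k V) (n : ℕ) : ContinuousOn (V n) (Ici 0) := by
  cases n with
  | zero =>
    exact (continuousOn_const (c := (0 : ℝ))).congr fun t ht => hV.zero t ht
  | succ n => exact fun t ht => (hV.deriv n t ht).continuousWithinAt

/-- Job NN -/
theorem t_NN : P_NN := by
  intro L g k V hL hV h0 n
  cases n with
  | zero =>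
    intro t ht
    rw [hV.zero t ht]
  | succ n =>
    set r : ℝ → ℝ := fun s => L ^ n * (g * V (n + 2) (max s 0) + k) with hr
    have hrc : Continuous r := by
      have h1 : Continuous fun s : ℝ => V (n + 2) (max s 0) :=
        (cont hV (n + 2)).comp_continuous (f := fun s : ℝ => max s 0) (by fun_prop)
          (fun s => mem_Ici.mpr (le_max_right _ _))
      exact continuous_const.mul ((continuous_const.mul h1).add continuous_const)
    set R : ℝ → ℝ := fun t => ∫ s in (0 : ℝ)..t, r s with hR
    have hRd : ∀ t, HasDerivAt R (r t) t := fun t => (hrc.integral_hasStrictDerivAt 0 t).hasDerivAt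
    have hd : ∀ t, 0 ≤ t → HasDerivWithinAt (fun t => V (n + 1) t * Real.exp (R t))
        (L ^ n * V n t ^ 2 * Real.exp (R t)) (Ici 0) t := by
      intro t ht
      have h1 := (hV.deriv n t ht).mul ((hRd t).exp.hasDerivWithinAt (s := Ici 0))
      have h2 : r t = L ^ n * (g * V (n + 2) t + k) := by
        rw [hr]
        simp only [max_eq_left ht]
      rw [h2] at h1
      have h3 : L ^ n * V n t ^ 2 * Real.exp (R t) =
          L ^ n * (V n t ^ 2 - V (n + 1) t * (g * V (n + 2) t + k)) * Real.exp (R t) +
            V (n + 1) t * (Real.exp (R t) * (L ^ n * (g * V (n + 2) t + k))) := by ring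
      rw [h3]
      exact h1
    have hmono : MonotoneOn (fun t => V (n + 1) t * Real.exp (R t)) (Ici 0) := by
      apply monotoneOn_of_deriv_nonneg (convex_Ici 0)
      · exact fun t ht => (hd t ht).continuousWithinAt
      · intro t ht
        rw [interior_Ici] at ht
        exact ((hd t ht.le).hasDerivAt (Ici_mem_nhds ht)).differentiableAt.differentiableWithinAt
      · intro t ht
        rw [interior_Ici] at ht
        rw [((hd t ht.le).hasDerivAt (Ici_mem_nhds ht)).deriv]
        positivity
    intro t ht
    have h1 := hmono (mem_Ici.mpr (le_refl (0 : ℝ))) (mem_Ici.mpr ht) ht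
    simp only at h1
    have h2 : 0 ≤ V (n + 1) 0 * Real.exp (R 0) := mul_nonneg (h0 _) (Real.exp_pos _).le
    exact nonneg_of_mul_nonneg_left (h2.trans h1) (Real.exp_pos _)

end Pool.Agent.Q58.DY
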