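import Pool.Agent.Q58.DY.EN

/-!
# Job TIME: regular times
-/

namespace Pool.Agent.Q58.DY

open Set Filter Topology MeasureTheory Pool.Agent.Q186.DY

/-- Job TIME -/
theorem t_TIME : P_TIME := by
  intro L g k E T V hL hg hk hV h0 hE hT
  have hL0 : 0 < L := by linarith
  have hg0 : 0 < g := by linarith
  set S : ℕ → ℝ → ℝ := fun N s => ∑ n ∈ Finset.range (N + 1), g ^ n * V n s ^ 2 with hS
  have hSc : ∀ N, ContinuousOn (S N) (Ici 0) := fun N =>
    continuousOn_finsetSum _ fun n _ => continuousOn_const.mul ((cont hV n).pow 2)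
  have hS0 : ∀ N s, 0 ≤ S N s := fun N s => Finset.sum_nonneg fun n _ => by positivity
  have hSm : ∀ N s, S N s ≤ S (N + 1) s := by
    intro N s
    simp only [hS]
    rw [Finset.sum_range_succ _ (N + 1)]
    have : 0 ≤ g ^ (N + 1) * V (N + 1) s ^ 2 := by positivity
    linarith
  have hint : ∀ N, ∫ s in (0 : ℝ)..T, S N s ≤ E * L / (2 * k) := by
    intro N
    have h1 := en_main L g k V hL0 hV N T hT.le
    have h2 : 0 ≤ ∑ n ∈ Finset.range (N + 1), (g / L) ^ n * V n T ^ 2 :=
      Finset.sum_nonneg fun n _ => by positivity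
    have h3 : 0 ≤ ∫ s in (0 : ℝ)..T, g ^ N * V N s ^ 2 * V (N + 1) s := by
      apply intervalIntegral.integral_nonneg hT.le
      intro s hs
      have := h0 (N + 1) s hs.1
      positivity
    have h4 : 0 ≤ 2 * g / L * ∫ s in (0 : ℝ)..T, g ^ N * V N s ^ 2 * V (N + 1) s := by positivity
    have h5 : 2 * k / L * (∫ s in (0 : ℝ)..T, S N s) ≤ E := by
      have := hE N
      simp only [hS]
      linarith
    rw [le_div_iff₀ (by positivity)]
    rw [div_mul_eq_mul_div, div_le_iff₀ hL0] at h5
    linarith
  have hE0 : 0 ≤ E := le_trans (Finset.sum_nonneg fun n _ => by positivity) (hE 0)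
  set C : ℝ := E * L / (2 * k) with hC
  have hC0 : 0 ≤ C := by positivity
  set K : ℝ := 3 * (C + 1) / T with hK
  set Z : ℕ → Set ℝ := fun N => Icc (T / 3) (2 * T / 3) ∩ S N ⁻¹' Iic K with hZ
  have hsub : Icc (T / 3) (2 * T / 3) ⊆ Ici (0 : ℝ) := fun x hx => by
    have := hx.1
    show 0 ≤ x
    linarith
  have hZcl : ∀ N, IsClosed (Z N) := fun N =>
    ((hSc N).mono hsub).preimage_isClosed_of_isClosed isClosed_Icc isClosed_Iic
  have hne : ∀ N, (Z N).Nonempty := by
    intro N
    by_contra hcon
    rw [not_nonempty_iff_eq_empty] at hcon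
    have h1 : ∀ s ∈ Icc (T / 3) (2 * T / 3), K ≤ S N s := by
      intro s hs
      by_contra hlt
      push Not at hlt
      have : s ∈ Z N := ⟨hs, hlt.le⟩
      rw [hcon] at this
      exact this
    have hii : ∀ a b, 0 ≤ a → 0 ≤ b → IntervalIntegrable (S N) volume a b := by
      intro a b ha hb
      apply ContinuousOn.intervalIntegrable
      apply (hSc N).mono
      intro x hx
      have := hx.1
      exact le_trans (le_min ha hb) this
    have h2 : ∫ _s in (T / 3)..(2 * T / 3), K ≤ ∫ s in (T / 3)..(2 * T / 3), S N s := by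
      apply intervalIntegral.integral_mono_on (by linarith) _root_.intervalIntegrable_const
        (hii _ _ (by linarith) (by linarith))
      exact h1
    have h3 : ∫ s in (0 : ℝ)..T, S N s = (∫ s in (0 : ℝ)..(T / 3), S N s) +
        (∫ s in (T / 3)..(2 * T / 3), S N s) + ∫ s in (2 * T / 3)..T, S N s := by
      rw [intervalIntegral.integral_add_adjacent_intervals (hii _ _ (by linarith) (by linarith))
        (hii _ _ (by linarith) (by linarith)),
        intervalIntegral.integral_add_adjacent_intervals (hii _ _ (by linarith) (by linarith))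
        (hii _ _ (by linarith) (by linarith))]
    have h4 : 0 ≤ ∫ s in (0 : ℝ)..(T / 3), S N s :=
      intervalIntegral.integral_nonneg (by linarith) fun s _ => hS0 N s
    have h5 : 0 ≤ ∫ s in (2 * T / 3)..T, S N s :=
      intervalIntegral.integral_nonneg (by linarith) fun s _ => hS0 N s
    rw [intervalIntegral.integral_const, smul_eq_mul] at h2
    have h6 : (2 * T / 3 - T / 3) * K = C + 1 := by
      rw [hK]
      field_simp
      ring
    have := hint N
    rw [h6] at h2
    linarith
  obtain ⟨t0, ht0⟩ := IsCompact.nonempty_iInter_of_sequence_nonempty_isCompact_isClosed Z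
    (fun N x hx => ⟨hx.1, le_trans (hSm N x) hx.2⟩) hne
    (isCompact_Icc.of_isClosed_subset (hZcl 0) inter_subset_left) hZcl
  rw [mem_iInter] at ht0
  have ht0' : T / 3 ≤ t0 ∧ t0 ≤ 2 * T / 3 := (ht0 0).1
  refine ⟨t0, by linarith [ht0'.1], by linarith [ht0'.2], ?_⟩
  have hsum : Summable (fun n => g ^ n * V n t0 ^ 2) := by
    apply summable_of_sum_range_le (c := K)
    · intro n; positivity
    · intro n
      cases n with
      | zero => 
        simp only [Finset.range_zero, Finset.sum_empty]
        exact le_trans (hS0 0 t0) (ht0 0).2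
      | succ n => exact (ht0 n).2
  have hz := hsum.tendsto_atTop_zero
  have hz2 : Tendsto (fun n => V n t0 ^ 2) atTop (𝓝 0) := by
    apply squeeze_zero (fun n => sq_nonneg _) _ hz
    intro n
    have : 1 ≤ g ^ n := one_le_pow₀ hg
    have h1 : 0 ≤ V n t0 ^ 2 := sq_nonneg _
    nlinarith
  have hz3 := (Real.continuous_sqrt.tendsto 0).comp hz2
  rw [Real.sqrt_zero] at hz3
  refine hz3.congr fun n => ?_
  simp only [Function.comp]
  exact Real.sqrt_sq (h0 n t0 (by linarith [ht0'.1]))

end Pool.Agent.Q58.DY
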